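import Pool.Agent.helper387_fk.ThPair

/-!
A graph `G` on six points such that every minimal generating set of the ideal of relations of `E_G`
contains a relation whose `S_6`-degree is not an automorphism of its support.
-/

namespace Pool.Agent.Results.MP_349275_al.ThetaGraph

open H387FK

attribute [local irreducible] H387FK.instRing H387FK.instAlg

section general

variable {n : ℕ} (G : SimpleGraph (Fin n))

/-- The edges `{i < j}` of a graph on `n` points. -/
abbrev Edge : Type := {p : Fin n × Fin n // p.1 < p.2 ∧ G.Adj p.1 p.2}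

/-- The free associative algebra `T_G` on the edges: combinations of words in the edges. -/
abbrev TG : Type := MonoidAlgebra ℚ (FreeMonoid (Edge G))

/-- The value of a word in the Fomin-Kirillov algebra. -/
noncomputable def piw : FreeMonoid (Edge G) →* FK n := FreeMonoid.lift fun e => x e.1.1 e.1.2

/-- The homomorphism from `T_G` to the Fomin-Kirillov algebra, with image `E_G`. -/
noncomputable def pi : TG G →ₐ[ℚ] FK n :=
  MonoidAlgebra.lift ℚ (FK n) (FreeMonoid (Edge G)) (piw G)

/-- The ideal `I_G` (as a subspace). -/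
noncomputable def IG : Submodule ℚ (TG G) := LinearMap.ker (pi G).toLinearMap

/-- The span `T_G^+` of the words of positive length. -/
noncomputable def Tpos : Submodule ℚ (TG G) :=
  Submodule.span ℚ {t | ∃ w : FreeMonoid (Edge G), w ≠ 1 ∧ t = MonoidAlgebra.single w 1}

/-- The subspace `T_G^+ I_G + I_G T_G^+`. -/
noncomputable def JG : Submodule ℚ (TG G) := Tpos G * IG G ⊔ IG G * Tpos G

/-- The `S_n`-degree of a word. -/
noncomputable def sdeg : FreeMonoid (Edge G) →* Equiv.Perm (Fin n) :=
  FreeMonoid.lift fun e => Equiv.swap e.1.1 e.1.2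

variable {G}

/-- The element `r` is homogeneous of length `d` and of `S_n`-degree `σ`. -/
def IsHom (r : TG G) (d : ℕ) (σ : Equiv.Perm (Fin n)) : Prop :=
  ∀ w : FreeMonoid (Edge G), r.coeff w ≠ 0 → w.toList.length = d ∧ sdeg G w = σ

/-- Minimal relations. -/
structure IsMinRel (r : TG G) : Prop where
  mem : r ∈ IG G
  hom : ∃ d σ, IsHom r d σ
  notMem : r ∉ JG G

/-- Minimal generating sets of `I_G`. -/
structure IsMinGen (R : Set (TG G)) : Prop where
  rel : ∀ r ∈ R, IsMinRel r
  gen : TwoSidedIdeal.span R = TwoSidedIdeal.ker (pi G)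
  indep : LinearIndependent ℚ (fun r : R => (JG G).mkQ r.1)

/-- The support of an element: the graph of all edges which occur in it. -/
def supp (r : TG G) : SimpleGraph (Fin n) :=
  SimpleGraph.fromEdgeSet
    {s | ∃ w : FreeMonoid (Edge G), r.coeff w ≠ 0 ∧ ∃ e ∈ w.toList, s = s(e.1.1, e.1.2)}

/-- The permutation `σ` maps the edge set of `H` onto itself. -/
def IsAut (σ : Equiv.Perm (Fin n)) (H : SimpleGraph (Fin n)) : Prop :=
  (Sym2.map σ) '' H.edgeSet = H.edgeSet

end general

/-- The graph with edges 14, 15, 16, 23, 25, 26, 34 (the vertex `k` is `k - 1` here). -/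
def theta : SimpleGraph (Fin 6) :=
  SimpleGraph.fromEdgeSet {s(0, 3), s(0, 4), s(0, 5), s(1, 2), s(1, 4), s(1, 5), s(2, 3)}

theorem mem_TH {a b : Fin 6} (h1 : a < b) (h2 : theta.Adj a b) : (a, b) ∈ H387P.TH := by
  unfold theta at h2
  rw [SimpleGraph.fromEdgeSet_adj] at h2
  have h3 := h2.1
  simp only [Set.mem_insert_iff, Set.mem_singleton_iff, Sym2.eq_iff] at h3
  unfold H387P.TH
  revert h1
  rcases h3 with (⟨rfl, rfl⟩ | ⟨rfl, rfl⟩) | (⟨rfl, rfl⟩ | ⟨rfl, rfl⟩) | (⟨rfl, rfl⟩ | ⟨rfl, rfl⟩) |
    (⟨rfl, rfl⟩ | ⟨rfl, rfl⟩) | (⟨rfl, rfl⟩ | ⟨rfl, rfl⟩) | (⟨rfl, rfl⟩ | ⟨rfl, rfl⟩) |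
    (⟨rfl, rfl⟩ | ⟨rfl, rfl⟩) <;> decide

theorem edge_mem (e : Edge theta) : e.1 ∈ H387P.TH := mem_TH e.2.1 e.2.2

/-- The word as a list of pairs. -/
def wl (w : FreeMonoid (Edge theta)) : H387P.OW := w.toList.map (fun e => e.1)

theorem wl_mem (w : FreeMonoid (Edge theta)) : ∀ m ∈ wl w, m ∈ H387P.TH := by
  intro m hm
  unfold wl at hm
  rw [List.mem_map] at hm
  obtain ⟨e, _, rfl⟩ := hm
  exact edge_mem e

theorem wl_mul (u v : FreeMonoid (Edge theta)) : wl (u * v) = wl u ++ wl v := by
  unfold wl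
  rw [FreeMonoid.toList_mul, List.map_append]

theorem piw_eq (w : FreeMonoid (Edge theta)) : piw theta w = H387P.evo (wl w) := by
  unfold piw wl
  rw [FreeMonoid.lift_apply]
  induction w.toList with
  | nil => rfl
  | cons e l ih =>
    rw [List.map_cons, List.prod_cons, ih, List.map_cons]
    rfl

theorem sdeg_eq (w : FreeMonoid (Edge theta)) : sdeg theta w = H387P.sdo (wl w) := by
  unfold sdeg wl
  rw [FreeMonoid.lift_apply]
  induction w.toList with
  | nil => rfl
  | cons e l ih =>
    rw [List.map_cons, List.prod_cons, ih, List.map_cons]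
    rfl

/-- The functional on words. -/
def F (w : FreeMonoid (Edge theta)) : ℚ := (H387P.Fo (wl w) : ℚ)

theorem F_cons (e : Edge theta) (w : FreeMonoid (Edge theta)) :
    F (FreeMonoid.of e * w) = if e.1 = (1, 4) then B (H387P.evop H387P.c) (piw theta w) else 0 := by
  have h1 : wl (FreeMonoid.of e * w) = e.1 :: wl w := by
    rw [wl_mul]
    rfl
  unfold F
  rw [h1, H387P.Fo]
  by_cases he : e.1 = (1, 4)
  · rw [if_pos he, if_pos he, piw_eq]
    have := H387P.pr_eq (wl w).reverse
      (fun l hl => H387P.TH_ne l (wl_mem w l (List.mem_reverse.mp hl))) H387P.c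
    rw [List.reverse_reverse] at this
    exact this.symm
  · rw [if_neg he, if_neg he]
    simp

theorem piw_of (e : Edge theta) : piw theta (FreeMonoid.of e) = x e.1.1 e.1.2 := by
  unfold piw
  rw [FreeMonoid.lift_eval_of]

theorem F_snoc (w : FreeMonoid (Edge theta)) (l : Edge theta) :
    F (w * FreeMonoid.of l) = B (H387P.evop (H387P.q l.1)) (piw theta w) := by
  induction w using FreeMonoid.casesOn with
  | one =>
    rw [one_mul]
    have h1 : wl (FreeMonoid.of l) = [l.1] := rfl
    unfold F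
    rw [h1, map_one]
    have h2 : ∀ m ∈ H387P.TH, H387P.Fo [m] = H387P.epsp (H387P.q m) := by decide +kernel
    rw [h2 _ (edge_mem l), B_symm, B_one_left, H387P.eps_evop]
  | of_mul e w =>
    rw [mul_assoc, F_cons, map_mul (piw theta) w (FreeMonoid.of l),
      map_mul (piw theta) (FreeMonoid.of e) w, piw_of, piw_of, piw_eq w]
    have hk := H387P.key l.1 (edge_mem l) (wl w) (wl_mem w)
    by_cases he : e.1 = (1, 4)
    · rw [if_pos he, hk.1, he]
    · rw [if_neg he]
      have h3 : e.1 ∈ H387P.TH' := by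
        have h4 := edge_mem e
        revert he h4
        generalize e.1 = m
        revert m
        decide
      rw [hk.2 _ h3]

/-- The functional. -/
noncomputable def fl : TG theta →ₗ[ℚ] ℚ :=
  (Finsupp.linearCombination ℚ F).comp (MonoidAlgebra.coeffLinearEquiv ℚ).toLinearMap

theorem fl_single (w : FreeMonoid (Edge theta)) (a : ℚ) :
    fl (MonoidAlgebra.single w a) = a * F w := by
  show Finsupp.linearCombination ℚ F (MonoidAlgebra.single w a).coeff = _
  rw [MonoidAlgebra.coeff_single, Finsupp.linearCombination_single, smul_eq_mul]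

theorem pi_single (w : FreeMonoid (Edge theta)) (a : ℚ) :
    pi theta (MonoidAlgebra.single w a) = a • piw theta w := by
  unfold pi
  rw [MonoidAlgebra.lift_single]

theorem fl_left (e : Edge theta) (t : TG theta) :
    fl (MonoidAlgebra.single (FreeMonoid.of e) 1 * t) =
      if e.1 = (1, 4) then B (H387P.evop H387P.c) (pi theta t) else 0 := by
  induction t using MonoidAlgebra.induction_linear with
  | zero => simp
  | add a b ha hb =>
    rw [mul_add, map_add, ha, hb, map_add]
    by_cases he : e.1 = (1, 4)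
    · simp only [if_pos he, map_add]
    · simp only [if_neg he, add_zero]
  | single w a =>
    rw [MonoidAlgebra.single_mul_single, fl_single, F_cons, pi_single, one_mul]
    by_cases he : e.1 = (1, 4)
    · simp only [if_pos he, map_smul, smul_eq_mul]
    · simp only [if_neg he, mul_zero]

theorem fl_right (t : TG theta) (l : Edge theta) :
    fl (t * MonoidAlgebra.single (FreeMonoid.of l) 1) =
      B (H387P.evop (H387P.q l.1)) (pi theta t) := by
  induction t using MonoidAlgebra.induction_linear with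
  | zero => simp
  | add a b ha hb => rw [add_mul, map_add, ha, hb, map_add, map_add]
  | single w a =>
    rw [MonoidAlgebra.single_mul_single, fl_single, F_snoc, pi_single, mul_one, map_smul, smul_eq_mul]

theorem mem_IG {t : TG theta} : t ∈ IG theta ↔ pi theta t = 0 := Iff.rfl

theorem fl_word_mul {w : FreeMonoid (Edge theta)} (hw : w ≠ 1) (a : ℚ) {t : TG theta}
    (ht : pi theta t = 0) : fl (MonoidAlgebra.single w a * t) = 0 := by
  induction w using FreeMonoid.casesOn with
  | one => exact absurd rfl hw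
  | of_mul e w =>
    have h1 : (MonoidAlgebra.single (FreeMonoid.of e * w) a : TG theta) =
        MonoidAlgebra.single (FreeMonoid.of e) 1 * MonoidAlgebra.single w a := by
      rw [MonoidAlgebra.single_mul_single, one_mul]
    rw [h1, mul_assoc, fl_left, map_mul, ht]
    simp

theorem fl_mul_word {w : FreeMonoid (Edge theta)} (hw : w ≠ 1) (a : ℚ) {t : TG theta}
    (ht : pi theta t = 0) : fl (t * MonoidAlgebra.single w a) = 0 := by
  have h0 : ∃ (u : FreeMonoid (Edge theta)) (l : Edge theta), w = u * FreeMonoid.of l := by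
    rcases List.eq_nil_or_concat w.toList with h | ⟨u, l, h⟩
    · exact absurd h hw
    · refine ⟨FreeMonoid.ofList u, l, ?_⟩
      have h2 : w.toList = u ++ [l] := by rw [h, List.concat_eq_append]
      exact h2
  obtain ⟨u, l, rfl⟩ := h0
  have h1 : (MonoidAlgebra.single (u * FreeMonoid.of l) a : TG theta) =
      MonoidAlgebra.single u a * MonoidAlgebra.single (FreeMonoid.of l) 1 := by
    rw [MonoidAlgebra.single_mul_single, mul_one]
  rw [h1, ← mul_assoc, fl_right, map_mul, ht]
  simp

/-- The functional vanishes on `T⁺ I + I T⁺`. -/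
theorem fl_JG {t : TG theta} (ht : t ∈ JG theta) : fl t = 0 := by
  have h : JG theta ≤ LinearMap.ker fl := by
    refine sup_le ?_ ?_
    · rw [Submodule.mul_le]
      intro a ha b hb
      rw [LinearMap.mem_ker]
      have hb' := mem_IG.mp hb
      unfold Tpos at ha
      induction ha using Submodule.span_induction with
      | mem a ha =>
        obtain ⟨w, hw, rfl⟩ := ha
        exact fl_word_mul hw 1 hb'
      | zero => simp
      | add u v _ _ hu hv => rw [add_mul, map_add, hu, hv, add_zero]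
      | smul c u _ hu => rw [smul_mul_assoc, map_smul, hu, smul_zero]
    · rw [Submodule.mul_le]
      intro b hb a ha
      rw [LinearMap.mem_ker]
      have hb' := mem_IG.mp hb
      unfold Tpos at ha
      induction ha using Submodule.span_induction with
      | mem a ha =>
        obtain ⟨w, hw, rfl⟩ := ha
        exact fl_mul_word hw 1 hb'
      | zero => simp
      | add u v _ _ hu hv => rw [mul_add, map_add, hu, hv, add_zero]
      | smul c u _ hu => rw [mul_smul_comm, map_smul, hu, smul_zero]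
  exact h ht

theorem fl_mul_left (a : TG theta) {t : TG theta} (ht : pi theta t = 0) (h : fl t = 0) :
    fl (a * t) = 0 := by
  induction a using MonoidAlgebra.induction_linear with
  | zero => simp
  | add a b ha hb => rw [add_mul, map_add, ha, hb, add_zero]
  | single w a =>
    by_cases hw : w = 1
    · have h1 : (MonoidAlgebra.single (1 : FreeMonoid (Edge theta)) a : TG theta) = a • 1 := by
        rw [MonoidAlgebra.one_def, MonoidAlgebra.smul_single, smul_eq_mul, mul_one]
      rw [hw, h1, smul_mul_assoc, one_mul, map_smul, h, smul_zero]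
    · exact fl_word_mul hw a ht

theorem fl_mul_right (a : TG theta) {t : TG theta} (ht : pi theta t = 0) (h : fl t = 0) :
    fl (t * a) = 0 := by
  induction a using MonoidAlgebra.induction_linear with
  | zero => simp
  | add a b ha hb => rw [mul_add, map_add, ha, hb, add_zero]
  | single w a =>
    by_cases hw : w = 1
    · have h1 : (MonoidAlgebra.single (1 : FreeMonoid (Edge theta)) a : TG theta) = a • 1 := by
        rw [MonoidAlgebra.one_def, MonoidAlgebra.smul_single, smul_eq_mul, mul_one]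
      rw [hw, h1, mul_smul_comm, mul_one, map_smul, h, smul_zero]
    · exact fl_mul_word hw a ht

/-- The edges by number. -/
def ed : Fin 7 → Edge theta := ![
  ⟨(0, 3), by decide, by simp [theta]⟩, ⟨(0, 4), by decide, by simp [theta]⟩,
  ⟨(0, 5), by decide, by simp [theta]⟩, ⟨(1, 2), by decide, by simp [theta]⟩,
  ⟨(1, 4), by decide, by simp [theta]⟩, ⟨(1, 5), by decide, by simp [theta]⟩,
  ⟨(2, 3), by decide, by simp [theta]⟩]

/-- The edges by number, as letters. -/
def el : Fin 7 → H387C.L := ![.a14, .a15, .a16, .a23, .a25, .a26, .a34]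

theorem ed_el (k : Fin 7) : (ed k).1 = (H387C.v1 (el k), H387C.v2 (el k)) := by
  fin_cases k <;> rfl

/-- The relation of degree seven. -/
def r0l : List (Bool × List (Fin 7)) := [
  (true, [0, 1, 2, 6, 0, 3, 6]),
  (true, [0, 3, 4, 5, 1, 6, 3]),
  (true, [0, 3, 5, 1, 2, 6, 3]),
  (false, [0, 4, 5, 1, 6, 0, 3]),
  (false, [0, 5, 1, 2, 6, 0, 3]),
  (true, [1, 2, 0, 3, 4, 1, 6]),
  (true, [2, 0, 3, 4, 5, 1, 6]),
  (true, [2, 0, 3, 5, 1, 2, 6]),
  (false, [1, 2, 0, 4, 1, 6, 0]),
  (false, [2, 0, 4, 5, 1, 6, 0]),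
  (false, [2, 0, 5, 1, 2, 6, 0]),
  (true, [1, 2, 6, 0, 3, 4, 6]),
  (true, [2, 6, 0, 3, 4, 5, 6]),
  (true, [3, 4, 5, 1, 6, 3, 4]),
  (true, [3, 5, 1, 2, 6, 3, 4]),
  (true, [3, 5, 2, 6, 3, 4, 5]),
  (false, [4, 5, 1, 0, 3, 4, 1]),
  (false, [5, 1, 2, 0, 3, 4, 1]),
  (false, [5, 2, 0, 3, 4, 5, 1]),
  (false, [5, 2, 0, 3, 5, 1, 2]),
  (false, [4, 5, 1, 6, 0, 3, 4]),
  (false, [5, 1, 2, 6, 0, 3, 4]),
  (false, [5, 2, 6, 0, 3, 4, 5]),
  (true, [6, 0, 3, 4, 5, 6, 3])]

/-- The relation as an element of `T_G`. -/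
noncomputable def r0 : List (Bool × List (Fin 7)) → TG theta
  | [] => 0
  | t :: p => MonoidAlgebra.single (FreeMonoid.ofList (t.2.map ed)) (H387C.sv t.1) + r0 p

theorem evw_el (w : List (Fin 7)) : piw theta (FreeMonoid.ofList (w.map ed)) =
    H387C.evw (w.map el) := by
  rw [piw_eq]
  unfold wl
  rw [FreeMonoid.toList_ofList]
  induction w with
  | nil => rfl
  | cons k w ih =>
    simp only [List.map_cons, H387P.evo, H387C.evw]
    rw [ih, ed_el]

theorem pi_r0 (p : List (Bool × List (Fin 7))) : pi theta (r0 p) =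
    H387C.evp (p.map fun t => (t.1, t.2.map el)) := by
  induction p with
  | nil => simp [r0, H387C.evp]
  | cons t p ih =>
    rw [r0, map_add, pi_single, ih, evw_el]
    rfl

theorem r0_rel : (r0l.map fun t => (t.1, t.2.map el)) = H387C.Th.rel := rfl

theorem r0_mem : pi theta (r0 r0l) = 0 := by
  rw [pi_r0, r0_rel, H387C.Th.rel_eq]

/-- The value of the functional on a polynomial. -/
def flo (p : List (Bool × List (Fin 7))) : Int :=
  (p.map fun t => (if t.1 then -1 else 1) * H387P.Fo (t.2.map fun k => (H387C.v1 (el k), H387C.v2 (el k)))).sum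

theorem fl_r0 (p : List (Bool × List (Fin 7))) : fl (r0 p) = (flo p : ℚ) := by
  induction p with
  | nil => simp [r0, flo]
  | cons t p ih =>
    have h1 : flo (t :: p) = (if t.1 then -1 else 1) *
      H387P.Fo (t.2.map fun k => (H387C.v1 (el k), H387C.v2 (el k))) + flo p := rfl
    rw [r0, map_add, fl_single, ih, h1]
    unfold F wl
    rw [FreeMonoid.toList_ofList, List.map_map]
    have h2 : ((fun e : Edge theta => e.1) ∘ ed) = fun k => (H387C.v1 (el k), H387C.v2 (el k)) := by
      funext k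
      exact ed_el k
    rw [h2]
    obtain ⟨s, w⟩ := t
    cases s <;> simp [H387C.sv]

theorem flo_ne : flo r0l ≠ 0 := by decide +kernel

theorem fl_r0_ne : fl (r0 r0l) ≠ 0 := by
  rw [fl_r0]
  exact_mod_cast flo_ne

/-- Each generating set contains an element on which the functional does not vanish. -/
theorem exists_ne {R : Set (TG theta)} (hR : IsMinGen R) : ∃ r ∈ R, fl r ≠ 0 := by
  by_contra hc
  push Not at hc
  let K : TwoSidedIdeal (TG theta) := TwoSidedIdeal.mk' {t | pi theta t = 0 ∧ fl t = 0}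
    ⟨map_zero _, map_zero _⟩
    (by rintro a b ⟨h1, h2⟩ ⟨h3, h4⟩; exact ⟨by rw [map_add, h1, h3, add_zero], by rw [map_add, h2, h4, add_zero]⟩)
    (by rintro a ⟨h1, h2⟩; exact ⟨by rw [map_neg, h1, neg_zero], by rw [map_neg, h2, neg_zero]⟩)
    (by rintro a b ⟨h1, h2⟩; exact ⟨by rw [map_mul, h1, mul_zero], fl_mul_left a h1 h2⟩)
    (by rintro a b ⟨h1, h2⟩; exact ⟨by rw [map_mul, h1, zero_mul], fl_mul_right b h1 h2⟩)
  have h1 : TwoSidedIdeal.span R ≤ K := by
    rw [TwoSidedIdeal.span_le]
    intro r hr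
    rw [SetLike.mem_coe, TwoSidedIdeal.mem_mk']
    exact ⟨mem_IG.mp (hR.rel r hr).mem, hc r hr⟩
  have h2 : r0 r0l ∈ K := by
    apply h1
    rw [hR.gen, TwoSidedIdeal.mem_ker]
    exact r0_mem
  rw [TwoSidedIdeal.mem_mk'] at h2
  exact fl_r0_ne h2.2

theorem fl_ne {r : TG theta} (h : fl r ≠ 0) : ∃ w, r.coeff w ≠ 0 ∧ F w ≠ 0 := by
  by_contra hc
  push Not at hc
  apply h
  show Finsupp.linearCombination ℚ F r.coeff = 0
  rw [Finsupp.linearCombination_apply, Finsupp.sum]
  refine Finset.sum_eq_zero ?_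
  intro w hw
  rw [hc w (Finsupp.mem_support_iff.mp hw), smul_zero]

/-- The pair is an edge of the graph. -/
def isE (a b : Fin 6) : Bool := H387P.TH.contains (a, b) || H387P.TH.contains (b, a)

/-- The edges which stay in the graph under four steps of the six-cycle. -/
theorem orbit : ∀ m ∈ H387P.TH,
    isE (H387P.sigma m.1) (H387P.sigma m.2) = true →
    isE (H387P.sigma (H387P.sigma m.1)) (H387P.sigma (H387P.sigma m.2)) = true →
    isE (H387P.sigma (H387P.sigma (H387P.sigma m.1)))
      (H387P.sigma (H387P.sigma (H387P.sigma m.2))) = true →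
    isE (H387P.sigma (H387P.sigma (H387P.sigma (H387P.sigma m.1))))
      (H387P.sigma (H387P.sigma (H387P.sigma (H387P.sigma m.2)))) = true →
    m = (0, 4) ∨ m = (1, 5) ∨ m = (2, 3) := by
  decide +kernel

theorem contains_of_adj {a b : Fin 6} (h : theta.Adj a b) : isE a b = true := by
  unfold isE
  rw [Bool.or_eq_true]
  rcases lt_trichotomy a b with h1 | h1 | h1
  · left
    rw [List.contains_iff_mem]
    exact mem_TH h1 h
  · rw [h1] at h
    exact absurd h (SimpleGraph.irrefl _)
  · right
    rw [List.contains_iff_mem]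
    exact mem_TH h1 h.symm

theorem sdo_matching (w : H387P.OW) (hw : ∀ m ∈ w, m = (0, 4) ∨ m = (1, 5) ∨ m = (2, 3)) :
    H387P.sdo w 0 = 0 ∧ H387P.sdo w 4 = 4 ∨ H387P.sdo w 0 = 4 ∧ H387P.sdo w 4 = 0 := by
  induction w with
  | nil => left; exact ⟨rfl, rfl⟩
  | cons m w ih =>
    have h1 := ih (fun l hl => hw l (by simp [hl]))
    have h2 := hw m (by simp)
    simp only [H387P.sdo, Equiv.Perm.mul_apply]
    rcases h1 with ⟨h3, h4⟩ | ⟨h3, h4⟩ <;> rcases h2 with rfl | rfl | rfl <;>
      rw [h3, h4] <;> decide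

theorem adj_of_supp {r : TG theta} {a b : Fin 6} (h : s(a, b) ∈ (supp r).edgeSet) :
    theta.Adj a b := by
  rw [SimpleGraph.mem_edgeSet, supp, SimpleGraph.fromEdgeSet_adj] at h
  obtain ⟨⟨w, _, e, _, he⟩, _⟩ := h
  rw [Sym2.eq_iff] at he
  rcases he with ⟨rfl, rfl⟩ | ⟨rfl, rfl⟩
  · exact e.2.2
  · exact e.2.2.symm

/-- For the graph `theta`, every minimal generating set of the ideal of relations contains a relation
whose `S_6`-degree does not map the edge set of its support onto itself. -/
theorem result : ∀ R : Set (TG theta), IsMinGen R →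
    ∃ r ∈ R, ∃ (d : ℕ) (σ : Equiv.Perm (Fin 6)), IsHom r d σ ∧ ¬ IsAut σ (supp r) := by
  intro R hR
  obtain ⟨r, hr, hf⟩ := exists_ne hR
  obtain ⟨d, σ, hh⟩ := (hR.rel r hr).hom
  refine ⟨r, hr, d, σ, hh, ?_⟩
  obtain ⟨w, hw, hF⟩ := fl_ne hf
  have h1 := hh w hw
  have h2 : H387P.Fo (wl w) ≠ 0 := by
    intro h
    apply hF
    unfold F
    rw [h]
    simp
  have h3 := H387P.Fo_ne h2
  have hσ : σ = H387P.sigma := by rw [← h1.2, sdeg_eq, h3.2]
  intro haut
  rw [hσ] at haut
  have hstep : ∀ a b : Fin 6, s(a, b) ∈ (supp r).edgeSet →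
      s(H387P.sigma a, H387P.sigma b) ∈ (supp r).edgeSet := by
    intro a b hab
    have : Sym2.map H387P.sigma s(a, b) ∈ (supp r).edgeSet := by
      rw [← haut]
      exact ⟨_, hab, rfl⟩
    exact this
  have hm : ∀ m ∈ wl w, m = (0, 4) ∨ m = (1, 5) ∨ m = (2, 3) := by
    intro m hm
    unfold wl at hm
    rw [List.mem_map] at hm
    obtain ⟨e, he, rfl⟩ := hm
    have h4 : s(e.1.1, e.1.2) ∈ (supp r).edgeSet := by
      rw [SimpleGraph.mem_edgeSet, supp, SimpleGraph.fromEdgeSet_adj]
      exact ⟨⟨w, hw, e, he, rfl⟩, ne_of_lt e.2.1⟩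
    have h5 := hstep _ _ h4
    have h6 := hstep _ _ h5
    have h7 := hstep _ _ h6
    have h8 := hstep _ _ h7
    exact orbit e.1 (edge_mem e) (contains_of_adj (adj_of_supp h5)) (contains_of_adj (adj_of_supp h6))
      (contains_of_adj (adj_of_supp h7)) (contains_of_adj (adj_of_supp h8))
  have h8 := sdo_matching (wl w) hm
  rw [h3.2] at h8
  revert h8
  decide

end Pool.Agent.Results.MP_349275_al.ThetaGraph
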